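import Pool.Agent.H73.KG.Stmts2

/-!
# Project KG, THB: the operator norm of the covariance along the channel
-/

set_option autoImplicit false

open MeasureTheory Set Filter Topology
open scoped ContDiff

namespace Pool.Agent.H73.KG

open Pool.Agent.H84 Pool.Agent.H84.Sym Pool.Agent.H84.Sym.P2x Pool.Agent.H19.KL

/-- the numerical estimate -/
theorem thb_num1 {a b s c : ℝ} (hab : a = Real.exp b) (hb : 1 ≤ b) (hs : 0 < s) (hc : 0 < c)
    (hc1 : c ≤ 1) (hsc : s * (a * b) ≤ c) :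
    s * (a + Real.log (1 / s)) * (1 + Real.log (1 / s) + b) ≤ 30 * Real.sqrt c := by
  have hba : b ≤ a := by
    rw [hab]
    linarith [Real.add_one_le_exp b]
  have ha : 1 ≤ a := hb.trans hba
  have hsc' : s ≤ c := by
    have : 1 ≤ a * b := by nlinarith
    nlinarith
  have hs1 : s ≤ 1 := hsc'.trans hc1
  set l : ℝ := Real.log (1 / s) with hl
  have hl0 : 0 ≤ l := Real.log_nonneg (by rw [le_div_iff₀ hs]; linarith)
  have hsl : s = Real.exp (-l) := by
    rw [hl, Real.exp_neg, Real.exp_log (by positivity)]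
    simp
  have hcc : c ≤ Real.sqrt c := by
    have h1 : Real.sqrt c * Real.sqrt c = c := Real.mul_self_sqrt hc.le
    have h2 : Real.sqrt c ≤ 1 := Real.sqrt_le_one.2 hc1
    nlinarith [Real.sqrt_nonneg c]
  rcases le_or_gt l (4 * b) with h | h
  · have h1 : a + l ≤ 5 * a := by linarith
    have h2 : 1 + l + b ≤ 6 * b := by linarith
    calc s * (a + l) * (1 + l + b) ≤ s * (5 * a) * (6 * b) := by gcongr
      _ = 30 * (s * (a * b)) := by ring
      _ ≤ 30 * c := by linarith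
      _ ≤ 30 * Real.sqrt c := by linarith
  · set r : ℝ := Real.exp (l / 4) with hr
    have hr1 : l / 4 + 1 ≤ r := Real.add_one_le_exp _
    have har : a ≤ r := by
      rw [hab, hr]
      exact Real.exp_le_exp.2 (by linarith)
    have hr0 : 0 < r := Real.exp_pos _
    have h1 : a + l ≤ 5 * r := by linarith
    have h2 : 1 + l + b ≤ 6 * r := by linarith
    have h3 : s * (r * r) = Real.sqrt s := by
      have e1 : s * (r * r) = Real.exp (-l / 2) := by
        rw [hr]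
        nth_rewrite 1 [hsl]
        rw [← Real.exp_add, ← Real.exp_add]
        congr 1
        ring
      rw [e1, Real.exp_half, ← hsl]
    calc s * (a + l) * (1 + l + b) ≤ s * (5 * r) * (6 * r) := by gcongr
      _ = 30 * (s * (r * r)) := by ring
      _ = 30 * Real.sqrt s := by rw [h3]
      _ ≤ 30 * Real.sqrt c := by
        have := Real.sqrt_le_sqrt hsc'
        linarith

theorem thb_L (n : ℕ) : L1 n = Real.exp (L2 n) ∧ 1 ≤ L2 n ∧ 2 ≤ L1 n := by
  have h0 : (2.7182818286 : ℝ) < L1 n := by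
    unfold L1
    have h1 : Real.log ((2:ℝ) ^ 4) ≤ Real.log ((n:ℝ) + 16) := by
      apply Real.log_le_log (by norm_num)
      have : (0:ℝ) ≤ n := Nat.cast_nonneg n
      linarith
    rw [Real.log_pow] at h1
    have := Real.log_two_gt_d9
    push_cast at h1
    linarith
  have h1 : 0 < L1 n := by linarith
  refine ⟨(Real.exp_log h1).symm, ?_, by linarith⟩
  unfold L2
  rw [Real.le_log_iff_exp_le h1]
  linarith [Real.exp_one_lt_d9]

/-- the second numerical estimate -/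
theorem thb_num2 (n p : ℕ) {s : ℝ} (hs : 0 < s) (hs1 : s ≤ 1)
    (hp : 20 * (L1 n + Real.log (1 / s)) ≤ p) :
    (4 / 3) ^ p * Real.sqrt ((4 / 3) ^ p * (1 / s * n)) *
      ((n * (1 / 2) ^ p + n * (1 / 3) ^ p) * Real.exp (p / 10)) ≤ 1 := by
  have hn : (0:ℝ) ≤ n := Nat.cast_nonneg n
  have h1 : (n:ℝ) * (1 / 2) ^ p + n * (1 / 3) ^ p ≤ 2 * n * (1 / 2) ^ p := by
    have : ((1:ℝ) / 3) ^ p ≤ (1 / 2) ^ p := by gcongr; norm_num
    nlinarith
  have h0 : 0 ≤ (4 / 3 : ℝ) ^ p * Real.sqrt ((4 / 3) ^ p * (1 / s * n)) := by positivity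
  refine (mul_le_mul_of_nonneg_left (mul_le_mul_of_nonneg_right h1 (Real.exp_pos _).le) h0).trans ?_
  apply abs_le_of_sq_le_sq' _ zero_le_one |>.2
  have e1 : ((4 / 3 : ℝ) ^ p * Real.sqrt ((4 / 3) ^ p * (1 / s * n)) *
      (2 * n * (1 / 2) ^ p * Real.exp (p / 10))) ^ 2 =
      4 * ((n:ℝ) ^ 3 / s) * ((16 / 27) * Real.exp (1 / 5)) ^ p := by
    have e2 : Real.sqrt ((4 / 3) ^ p * (1 / s * n)) ^ 2 = (4 / 3 : ℝ) ^ p * (1 / s * n) :=
      Real.sq_sqrt (by positivity)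
    have e3 : Real.exp (p / 10) ^ 2 = Real.exp (1 / 5) ^ p := by
      rw [← Real.exp_nat_mul, ← Real.exp_nat_mul]
      congr 1
      push_cast
      ring
    have e4 : ((4 / 3 : ℝ) ^ p) ^ 2 * (4 / 3) ^ p * ((1 / 2) ^ p) ^ 2 = (16 / 27) ^ p := by
      rw [← pow_mul, ← pow_mul, mul_comm p 2, pow_mul, pow_mul, ← mul_pow, ← mul_pow]
      norm_num
    calc _ = ((4 / 3 : ℝ) ^ p) ^ 2 * Real.sqrt ((4 / 3) ^ p * (1 / s * n)) ^ 2 *
          (4 * n ^ 2 * ((1 / 2) ^ p) ^ 2 * Real.exp (p / 10) ^ 2) := by ring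
      _ = 4 * ((n:ℝ) ^ 3 / s) * ((((4 / 3 : ℝ) ^ p) ^ 2 * (4 / 3) ^ p * ((1 / 2) ^ p) ^ 2) *
          Real.exp (1 / 5) ^ p) := by
        rw [e2, e3]
        ring
      _ = _ := by rw [e4, mul_pow]
  rw [e1, one_pow]
  have h2 : (16 / 27) * Real.exp (1 / 5) ≤ 3 / 4 := by
    have h3 : Real.exp (1 / 5) ^ 5 = Real.exp 1 := by
      rw [← Real.exp_nat_mul]
      norm_num
    have h4 : Real.exp (1 / 5) ≤ 81 / 64 := by
      apply le_of_pow_le_pow_left₀ (n := 5) (by norm_num) (by norm_num)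
      rw [h3]
      have := Real.exp_one_lt_d9
      norm_num
      linarith
    linarith
  have h3 : (3 / 4 : ℝ) ≤ Real.exp (-1 / 4) := by
    have := Real.add_one_le_exp (-1 / 4 : ℝ)
    linarith
  have h4 : ((16 / 27) * Real.exp (1 / 5)) ^ p ≤ Real.exp (-1 / 4) ^ p :=
    pow_le_pow_left₀ (by positivity) (h2.trans h3) p
  set l : ℝ := Real.log (1 / s) with hl
  have hl0 : 0 ≤ l := Real.log_nonneg (by rw [le_div_iff₀ hs]; linarith)
  have h5 : Real.exp (-1 / 4) ^ p ≤ Real.exp (-5 * (L1 n + l)) := by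
    rw [← Real.exp_nat_mul]
    apply Real.exp_le_exp.2
    linarith
  have hN : (0:ℝ) < n + 16 := by positivity
  have h6 : Real.exp (L1 n + l) = (n + 16) / s := by
    rw [Real.exp_add, L1, Real.exp_log hN, hl, Real.exp_log (by positivity)]
    ring
  set N : ℝ := (n + 16) / s with hNdef
  have hN16 : 16 ≤ N := by
    rw [hNdef, le_div_iff₀ hs]
    nlinarith
  have h7 : Real.exp (-5 * (L1 n + l)) = (N ^ 5)⁻¹ := by
    rw [← h6, ← Real.exp_nat_mul, ← Real.exp_neg]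
    congr 1
    push_cast
    ring
  have h8 : (n:ℝ) ^ 3 / s ≤ N ^ 3 := by
    have h9 : (n:ℝ) ≤ n + 16 := by linarith
    have h10 : (n:ℝ) ^ 3 ≤ (n + 16) ^ 3 := pow_le_pow_left₀ hn h9 3
    rw [hNdef, div_pow, div_le_div_iff₀ hs (by positivity)]
    have h11 : s ^ 3 ≤ s := by nlinarith [mul_nonneg hs.le hs.le, sq_nonneg s]
    nlinarith [mul_le_mul h10 h11 (by positivity) (by positivity : (0:ℝ) ≤ ((n:ℝ) + 16) ^ 3)]
  calc 4 * ((n:ℝ) ^ 3 / s) * ((16 / 27) * Real.exp (1 / 5)) ^ p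
      ≤ 4 * N ^ 3 * (N ^ 5)⁻¹ := by
        have h12 := h4.trans (h5.trans h7.le)
        gcongr
    _ = 4 / N ^ 2 := by
        have : N ≠ 0 := by positivity
        field_simp
    _ ≤ 1 := by
        rw [div_le_one (by positivity)]
        nlinarith

/-- convexity -/
theorem thb_conv {x : ℝ} (hx : 0 ≤ x) :
    (3 + x) ^ ((3:ℝ) / 2) ≤ 735 / 100 + 142 / 100 * (x * Real.sqrt x) := by
  have e1 : ∀ y : ℝ, 0 ≤ y → y ^ ((3:ℝ) / 2) = y * Real.sqrt y := by
    intro y hy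
    rw [show (3:ℝ) / 2 = 1 + 1 / 2 by norm_num, Real.rpow_add_of_nonneg hy (by norm_num)
      (by norm_num), Real.rpow_one, ← Real.sqrt_eq_rpow]
  have hcv := convexOn_rpow (show (1:ℝ) ≤ 3 / 2 by norm_num)
  have h := hcv.2 (show (3:ℝ) ∈ Ici (0:ℝ) from Set.mem_Ici.2 (by norm_num))
    (show x ∈ Ici (0:ℝ) from Set.mem_Ici.2 hx) (show (0:ℝ) ≤ 1 / 2 by norm_num)
    (show (0:ℝ) ≤ 1 / 2 by norm_num) (show (1 / 2 : ℝ) + 1 / 2 = 1 by norm_num)
  simp only [smul_eq_mul] at h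
  have e2 : (1 / 2 : ℝ) * 3 + 1 / 2 * x = (3 + x) * (1 / 2) := by ring
  rw [e2, Real.mul_rpow (by linarith) (by norm_num), e1 3 (by norm_num), e1 x hx,
    e1 (1 / 2) (by norm_num)] at h
  have s2 : (0.7071 : ℝ) ≤ Real.sqrt (1 / 2) := by
    apply Real.le_sqrt_of_sq_le
    norm_num
  have s3 : Real.sqrt 3 ≤ 1.7321 := by
    apply Real.sqrt_le_iff.2
    norm_num
  have h0 : 0 ≤ (3 + x) ^ ((3:ℝ) / 2) := by positivity
  have hxx : 0 ≤ x * Real.sqrt x := by positivity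
  have h1 : (3 + x) ^ ((3:ℝ) / 2) * (1 / 2 * 0.7071) ≤ 1 / 2 * (3 * 1.7321) + 1 / 2 * (x * Real.sqrt x) := by
    have : (3 + x) ^ ((3:ℝ) / 2) * (1 / 2 * 0.7071) ≤ (3 + x) ^ ((3:ℝ) / 2) * (1 / 2 * Real.sqrt (1 / 2)) := by
      gcongr
    nlinarith
  nlinarith

theorem thb_thm
    (hBAS : ∀ (E : Type) [NormedAddCommGroup E] [InnerProductSpace ℝ E]
      [FiniteDimensional ℝ E] [MeasurableSpace E] [BorelSpace E], BASStmt E)
    (hPWB : ∀ (E : Type) [NormedAddCommGroup E] [InnerProductSpace ℝ E]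
      [FiniteDimensional ℝ E] [MeasurableSpace E] [BorelSpace E], PWBStmt E)
    (hRGC : ∀ (E : Type) [NormedAddCommGroup E] [InnerProductSpace ℝ E]
      [FiniteDimensional ℝ E] [MeasurableSpace E] [BorelSpace E], RGCStmt E)
    (hBAY : ∀ (E : Type) [NormedAddCommGroup E] [InnerProductSpace ℝ E]
      [FiniteDimensional ℝ E] [MeasurableSpace E] [BorelSpace E], BAYStmt E)
    (hFPB : ∀ (E : Type) [NormedAddCommGroup E] [InnerProductSpace ℝ E]
      [FiniteDimensional ℝ E] [MeasurableSpace E] [BorelSpace E], FPBStmt E)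
    (hTRP : ∀ (E : Type) [NormedAddCommGroup E] [InnerProductSpace ℝ E]
      [FiniteDimensional ℝ E] [MeasurableSpace E] [BorelSpace E], TRPStmt E)
    (hFPI : FPIStmt) (hTKL : TKLStmt) : THBStmt := by
  obtain ⟨C, hC, hT⟩ := hTKL
  have hC0 : 0 < C := by linarith
  have hcs : 1 / (30000 * C) ≤ 1 / 2 := by
    rw [div_le_div_iff₀ (by positivity) (by norm_num)]
    linarith
  have hcs0 : 0 < 1 / (30000 * C) := by positivity
  set c : ℝ := (1 / (30000 * C)) ^ 2 with hcdef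
  have hc0 : 0 < c := by positivity
  have hc1 : c ≤ 1 / 2 := by
    rw [hcdef]
    nlinarith
  have hsqrt : Real.sqrt c = 1 / (30000 * C) := Real.sqrt_sq hcs0.le
  refine ⟨c, hc0, hc1, ?_⟩
  intro E _ _ _ _ _ U t hU hcov ι _ _ b s hs hsc
  set n : ℕ := Module.finrank ℝ E with hn
  have hcard : Fintype.card ι = n := (Module.finrank_eq_card_basis b.toBasis).symm
  obtain ⟨hL, hL2, hL1⟩ := thb_L n
  have hprod : 1 ≤ L1 n * L2 n := by nlinarith
  have hsc' : s * (L1 n * L2 n) ≤ c := (le_div_iff₀ (by linarith)).1 hsc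
  have hs12 : s ≤ 1 / 2 := by nlinarith
  set l : ℝ := Real.log (1 / s) with hl
  have hl0 : 0 ≤ l := Real.log_nonneg (by rw [le_div_iff₀ hs]; linarith)
  have hX := thb_num1 hL hL2 hs hc0 (by linarith) hsc'
  rw [← hl, hsqrt] at hX
  set p : ℕ := ⌈20 * (L1 n + l)⌉₊ with hpdef
  have hp : 20 * (L1 n + l) ≤ p := Nat.le_ceil _
  have hp' : (p:ℝ) < 20 * (L1 n + l) + 1 := Nat.ceil_lt_add_one (by positivity)
  have hp1 : 1 ≤ p := Nat.ceil_pos.2 (by positivity)
  refine ⟨p, hp1, ?_⟩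
  -- the growth of the potential
  set Φ : ℝ → ℝ := fun r => C * (r - r * Real.log r + r * L2 n) with hΦ
  set k : ℝ → ℝ := fun r => C * (Real.log (1 / r) + L2 n) with hk
  have hcont : ContinuousOn Φ (Icc 0 (1 / 2)) := by
    have : Continuous Φ := by
      have h1 := Real.continuous_mul_log
      exact continuous_const.mul ((continuous_id.sub h1).add (continuous_id.mul continuous_const))
    exact this.continuousOn
  have hder : ∀ r ∈ Ioo (0:ℝ) (1 / 2), HasDerivAt Φ (k r) r ∧ 0 ≤ k r ∧ TK E (r / 2) (k r) := by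
    intro r hr
    have hlr : Real.log (1 / r) = -Real.log r := by rw [one_div, Real.log_inv]
    refine ⟨?_, ?_, hT E r hr.1 hr.2.le⟩
    · have h1 := ((hasDerivAt_id r).sub ((hasDerivAt_id r).mul (Real.hasDerivAt_log hr.1.ne'))).add
        ((hasDerivAt_id r).mul_const (L2 n))
      have h2 := h1.const_mul C
      refine h2.congr_deriv ?_
      simp only [hk, hlr, id]
      have h3 : r * r⁻¹ = 1 := mul_inv_cancel₀ hr.1.ne'
      linear_combination (-C) * h3
    · have h1 : 0 ≤ Real.log (1 / r) := Real.log_nonneg (by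
        rw [le_div_iff₀ hr.1]; linarith [hr.2])
      simp only [hk]
      have : 0 ≤ L2 n := by linarith
      positivity
  have hG := hTRP E U t hU ι b (1 / 2) Φ k (by norm_num) hcont (by simp [hΦ]) hder p hp1 s
    ⟨hs.le, hs12⟩
  rw [hcard] at hG
  have hFP0 : FP p (cm b U) ≤ n * (1 / 2) ^ p := by
    have h1 := ((hBAS E).2.2.2.2.2.1 U t hU ι b)
    have h2 := (hFPI ι (cm b U) h1.1 p hp1).2.2.1 1 zero_le_one (h1.2 1 hcov)
    rw [hcard] at h2
    norm_num at h2 ⊢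
    linarith
  have hexp : 9 / 2 * p * (p + 1) * Φ s ≤ p / 10 := by
    have h1 : Φ s = C * (s * (1 + l + L2 n)) := by
      have hls : l = -Real.log s := by rw [hl, one_div, Real.log_inv]
      simp only [hΦ, hls]
      ring
    have h2 : (p:ℝ) + 1 ≤ 21 * (L1 n + l) := by linarith
    have h3 : 0 ≤ s * (1 + l + L2 n) := by positivity
    have h4 : ((p:ℝ) + 1) * Φ s ≤ 1 / 45 := by
      rw [h1]
      calc ((p:ℝ) + 1) * (C * (s * (1 + l + L2 n))) ≤
            21 * (L1 n + l) * (C * (s * (1 + l + L2 n))) := by gcongr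
        _ = 21 * C * (s * (L1 n + l) * (1 + l + L2 n)) := by ring
        _ ≤ 21 * C * (30 * (1 / (30000 * C))) := by gcongr
        _ = 630 / 30000 := by field_simp; norm_num
        _ ≤ 1 / 45 := by norm_num
    have h5 : (0:ℝ) ≤ p := Nat.cast_nonneg p
    calc 9 / 2 * (p:ℝ) * (p + 1) * Φ s = 9 / 2 * p * ((p + 1) * Φ s) := by ring
      _ ≤ 9 / 2 * p * (1 / 45) := by gcongr
      _ = p / 10 := by ring
  have hE : EX U s (fun θ => FP p (cm b (pw U s θ))) ≤
      (n * (1 / 2) ^ p + n * (1 / 3) ^ p) * Real.exp (p / 10) := by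
    have h1 : (0:ℝ) ≤ n * (1 / 3) ^ p := by positivity
    have h2 : (FP p (cm b U) + n * (1 / 3) ^ p) * Real.exp (9 / 2 * p * (p + 1) * Φ s) ≤
        (n * (1 / 2) ^ p + n * (1 / 3) ^ p) * Real.exp (p / 10) := by
      have h3 : Real.exp (9 / 2 * p * (p + 1) * Φ s) ≤ Real.exp (p / 10) := Real.exp_le_exp.2 hexp
      gcongr
    linarith
  -- pointwise facts
  have hpt : ∀ θ : E, 0 ≤ FP p (cm b (pw U s θ)) ∧ FP p (cm b (pw U s θ)) ≤ 1 / s * n := by
    intro θ
    obtain ⟨ht1, -, -, -, hcv, hps, -⟩ := hBAS E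
    have ht0 : 0 < t := hU.1.choose_spec.pos
    have h1 : PP (pw U s θ) s := ht1 _ _ _ ((hPWB E U t hU).1 s θ hs.le) hs (by linarith)
    have h2 := hps _ _ h1 ι b
    have h3 := hFPI ι _ h2.1 p hp1
    refine ⟨h3.1, ?_⟩
    have h4 := h3.2.2.1 (1 / s) (by positivity) (h2.2 _ (hcv _ _ h1))
    rw [hcard] at h4
    refine h4.trans ?_
    have h5 : (1 / s / (1 + 1 / s)) ^ p ≤ 1 := by
      apply pow_le_one₀ (by positivity)
      rw [div_le_one (by positivity)]
      linarith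
    have h6 : 0 ≤ 1 / s := by positivity
    have h7 : (0:ℝ) ≤ n := Nat.cast_nonneg n
    calc 1 / s * (1 / s / (1 + 1 / s)) ^ p * n ≤ 1 / s * 1 * n := by gcongr
      _ = 1 / s * n := by ring
  set R : ℝ := (4 / 3) ^ p * Real.sqrt ((4 / 3) ^ p * (1 / s * n)) with hR
  have hR0 : 0 ≤ R := by positivity
  have hup : ∀ θ : E, (3 + (4 / 3) ^ p * FP p (cm b (pw U s θ))) ^ ((3:ℝ) / 2) ≤
      735 / 100 + 142 / 100 * R * FP p (cm b (pw U s θ)) := by
    intro θ
    obtain ⟨h1, h2⟩ := hpt θ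
    have h3 := thb_conv (x := (4 / 3) ^ p * FP p (cm b (pw U s θ))) (by positivity)
    refine h3.trans ?_
    have h4 : Real.sqrt ((4 / 3) ^ p * FP p (cm b (pw U s θ))) ≤
        Real.sqrt ((4 / 3) ^ p * (1 / s * n)) := Real.sqrt_le_sqrt (by gcongr)
    have h5 : (4 / 3) ^ p * FP p (cm b (pw U s θ)) *
        Real.sqrt ((4 / 3) ^ p * FP p (cm b (pw U s θ))) ≤ R * FP p (cm b (pw U s θ)) := by
      rw [hR]
      calc (4 / 3 : ℝ) ^ p * FP p (cm b (pw U s θ)) *
            Real.sqrt ((4 / 3) ^ p * FP p (cm b (pw U s θ)))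
          ≤ (4 / 3 : ℝ) ^ p * FP p (cm b (pw U s θ)) * Real.sqrt ((4 / 3) ^ p * (1 / s * n)) := by
            gcongr
        _ = _ := by ring
    linarith
  have hGCF : GC (fun θ => FP p (cm b (pw U s θ))) :=
    ((hRGC E).2.2.2.2.2.1 _ (hFPB E U t hU ι b p hp1).1 s hs).1
  have hGCu : GC (fun θ => 735 / 100 + 142 / 100 * R * FP p (cm b (pw U s θ))) :=
    (GC.const _).add ((GC.const _).mul hGCF)
  have hGCl : GC (fun θ => (3 + (4 / 3) ^ p * FP p (cm b (pw U s θ))) ^ ((3:ℝ) / 2)) := by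
    refine ⟨?_, Gr.of_le hGCu.2 fun θ => ?_⟩
    · exact (continuous_const.add (continuous_const.mul hGCF.1)).rpow_const
        fun _ => Or.inr (by norm_num)
    · have h1 := (hpt θ).1
      rw [abs_of_nonneg (by positivity), abs_of_nonneg (by positivity)]
      exact hup θ
  obtain ⟨-, hadd, hmul, hconst, hmono, -, -⟩ := hBAY E U t hU s hs.le
  calc EX U s (fun θ => (3 + (4 / 3) ^ p * FP p (cm b (pw U s θ))) ^ ((3:ℝ) / 2))
      ≤ EX U s (fun θ => 735 / 100 + 142 / 100 * R * FP p (cm b (pw U s θ))) :=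
        hmono _ _ hGCl hGCu hup
    _ = 735 / 100 + 142 / 100 * R * EX U s (fun θ => FP p (cm b (pw U s θ))) := by
        rw [hadd _ _ (GC.const _) ((GC.const _).mul hGCF), hconst, hmul]
    _ ≤ 735 / 100 + 142 / 100 * R * ((n * (1 / 2) ^ p + n * (1 / 3) ^ p) * Real.exp (p / 10)) := by
        gcongr
    _ = 735 / 100 + 142 / 100 * (R * ((n * (1 / 2) ^ p + n * (1 / 3) ^ p) *
          Real.exp (p / 10))) := by ring
    _ ≤ 735 / 100 + 142 / 100 * 1 := by
        have := thb_num2 n p hs (by linarith) hp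
        gcongr
    _ ≤ 10 := by norm_num

end Pool.Agent.H73.KG
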