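import Pool.Agent.H73.KG.Stmts

/-!
# Project KG, TK0: the simple bound for third moments
-/

set_option autoImplicit false

open MeasureTheory Set Filter Topology
open scoped ContDiff

namespace Pool.Agent.H73.KG

open Pool.Agent.H84 Pool.Agent.H84.Sym Pool.Agent.H84.Sym.P2x Pool.Agent.H19.KL

variable (E : Type) [NormedAddCommGroup E] [InnerProductSpace ℝ E]
    [FiniteDimensional ℝ E] [MeasurableSpace E] [BorelSpace E]

variable {E} in
theorem tk0_gc_li (e : E) : GC (li e) := by
  refine ⟨by unfold li; fun_prop, ?_⟩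
  have h : Gr (fun x : E => ‖e‖ * ‖x‖) := Gr.mul (Gr.of_bdd (A := |‖e‖|) fun _ => le_rfl) Gr.nrm
  refine Gr.of_le h fun x => ?_
  rw [abs_of_nonneg (by positivity : 0 ≤ ‖e‖ * ‖x‖)]
  exact abs_real_inner_le_norm e x

variable {E} in
theorem tk0_li_sum {ι : Type} [Fintype ι] (b : OrthonormalBasis ι ℝ E) (m : ι → ℝ) (x : E) :
    li (∑ j, m j • b j) x = ∑ j, m j * li (b j) x := by
  unfold li
  rw [sum_inner]
  exact Finset.sum_congr rfl fun j _ => by rw [real_inner_smul_left]

theorem tk0_thm (h1 : BASStmt E) (h2 : IMPStmt E) : TK0Stmt E := by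
  intro τ hτ U hU hc θ hθ ι _ b
  classical
  obtain ⟨-, -, hB3, hB4, -, -, -⟩ := h1
  have hL := h2 U τ 1 hU one_pos hc
  obtain ⟨⟨C, hP⟩, hprob⟩ := hU
  have hU' : PP U τ := ⟨⟨C, hP⟩, hprob⟩
  set m : ι → ι → ℝ := fun i j => t3 U θ (b i) (b j) with hm
  set K : ℝ := ∑ i, ∑ j, (m i j) ^ 2 with hK
  have hmsym : ∀ i j, m i j = m j i := by
    intro i j
    simp only [hm, t3]
    congr 1
    ext x
    ring
  set y : ι → E → ℝ := fun i x => li (b i) x - mn U (b i) with hy
  have hyGC : ∀ i, GC (y i) := fun i => (tk0_gc_li (b i)).sub (GC.const _)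
  have hyd : ∀ i x, HasFDerivAt (y i) (innerSL ℝ (b i)) x := by
    intro i x
    have h3 : HasFDerivAt (fun x : E => (inner ℝ (b i) x : ℝ)) (innerSL ℝ (b i)) x :=
      (innerSL ℝ (b i)).hasFDerivAt
    exact h3.sub_const _
  set q : E → ℝ := fun x => ∑ i, ∑ j, m i j * (y i x * y j x) with hq
  have hqGC : GC q := GC.sum fun i => GC.sum fun j => (GC.const _).mul ((hyGC i).mul (hyGC j))
  -- the gradient
  set g : E → E := fun x => ∑ i, (2 * ∑ j, m i j * y j x) • b i with hg
  have hqd : ∀ x, HasFDerivAt q (innerSL ℝ (g x)) x := by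
    intro x
    have h3 : HasFDerivAt q (∑ i, ∑ j, m i j • (y i x • innerSL ℝ (b j) +
        y j x • innerSL ℝ (b i))) x := by
      have := HasFDerivAt.fun_sum (u := Finset.univ) fun i (_ : i ∈ Finset.univ) =>
        HasFDerivAt.fun_sum (u := Finset.univ) fun j (_ : j ∈ Finset.univ) =>
          (((hyd i x).mul (hyd j x)).const_mul (m i j))
      exact this
    refine h3.congr_fderiv ?_
    ext v
    have e1 : ∑ i, ∑ j, m i j * (y i x * inner ℝ (b j) v) =
        ∑ i, ∑ j, m i j * (y j x * inner ℝ (b i) v) := by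
      rw [Finset.sum_comm]
      exact Finset.sum_congr rfl fun i _ => Finset.sum_congr rfl fun j _ => by rw [hmsym j i]
    have e2 : (innerSL ℝ (g x)) v = ∑ i, (2 * ∑ j, m i j * y j x) * inner ℝ (b i) v := by
      rw [innerSL_apply_apply, hg]
      simp only [sum_inner, real_inner_smul_left]
    rw [e2]
    simp only [ContinuousLinearMap.sum_apply, ContinuousLinearMap.smul_apply,
      ContinuousLinearMap.add_apply, innerSL_apply_apply, smul_eq_mul, mul_add,
      Finset.sum_add_distrib]
    rw [e1, ← two_mul, Finset.mul_sum]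
    refine Finset.sum_congr rfl fun i _ => ?_
    rw [mul_assoc, Finset.sum_mul]
    congr 1
    exact Finset.sum_congr rfl fun j _ => by ring
  have hgn : ∀ x, ‖g x‖ ^ 2 = ∑ i, (2 * ∑ j, m i j * y j x) ^ 2 := by
    intro x
    rw [← b.sum_sq_norm_inner_right (g x)]
    refine Finset.sum_congr rfl fun i _ => ?_
    have : inner ℝ (b i) (g x) = 2 * ∑ j, m i j * y j x := by
      rw [hg]
      simp only [inner_sum, real_inner_smul_right]
      rw [Finset.sum_eq_single i]
      · rw [real_inner_self_eq_norm_sq, b.norm_eq_one]; ring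
      · intro j _ hj
        rw [b.inner_eq_zero (Ne.symm hj), mul_zero]
      · simp
    rw [this, Real.norm_eq_abs, sq_abs]
  have hfd : ∀ x, fderiv ℝ q x = innerSL ℝ (g x) := fun x => (hqd x).fderiv
  have hfn : ∀ x, ‖fderiv ℝ q x‖ ^ 2 = ∑ i, (2 * ∑ j, m i j * y j x) ^ 2 := by
    intro x
    rw [hfd, innerSL_apply_norm, hgn]
  have hgcont : Continuous g := by
    refine continuous_finset_sum _ fun i _ => Continuous.smul ?_ continuous_const
    exact continuous_const.mul (continuous_finset_sum _ fun j _ => continuous_const.mul (hyGC j).1)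
  have hqC1 : ContDiff ℝ 1 q := by
    rw [contDiff_one_iff_fderiv]
    refine ⟨fun x => (hqd x).differentiableAt, ?_⟩
    have : fderiv ℝ q = fun x => innerSL ℝ (g x) := funext hfd
    rw [this]
    exact (innerSL ℝ (E := E)).continuous.comp hgcont
  have hsqGC : GC (fun x => ‖fderiv ℝ q x‖ ^ 2) := by
    have : (fun x => ‖fderiv ℝ q x‖ ^ 2) = fun x => ∑ i, (2 * ∑ j, m i j * y j x) ^ 2 :=
      funext hfn
    rw [this]
    exact GC.sum fun i => ((GC.const _).mul (GC.sum fun j => (GC.const _).mul (hyGC j))).sq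
  have hGr : Gr (fun x => ‖fderiv ℝ q x‖) := by
    have h3 : Gr (fun x => 1 + ‖fderiv ℝ q x‖ ^ 2) := ((GC.const 1).add hsqGC).2
    refine Gr.of_le h3 fun x => ?_
    rw [abs_of_nonneg (norm_nonneg _), abs_of_nonneg (by positivity)]
    nlinarith [sq_nonneg (‖fderiv ℝ q x‖ - 1), norm_nonneg (fderiv ℝ q x)]
  have hvar := hB3 U τ hU' q hqC1 hqGC.2 hGr _ hL
  -- the energy
  have hen : ∫ x, ‖fderiv ℝ q x‖ ^ 2 ∂(mu U) ≤ 4 * K := by
    have e1 : ∀ i, ∫ x, (2 * ∑ j, m i j * y j x) ^ 2 ∂(mu U) ≤ 4 * ∑ j, (m i j) ^ 2 := by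
      intro i
      set w : E := ∑ j, m i j • b j with hw
      have e2 : ∀ x, ∑ j, m i j * y j x = li w x - ∫ z, li w z ∂(mu U) := by
        intro x
        have e3 : ∫ z, li w z ∂(mu U) = ∑ j, m i j * mn U (b j) := by
          have : (fun z => li w z) = fun z => ∑ j, m i j * li (b j) z :=
            funext fun z => tk0_li_sum b (m i) z
          rw [this, integral_finset_sum]
          · exact Finset.sum_congr rfl fun j _ => by rw [integral_const_mul]; rfl
          · intro j _
            exact ((tk0_gc_li (b j)).integrable hP).const_mul _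
        rw [e3, hw, tk0_li_sum, ← Finset.sum_sub_distrib]
        exact Finset.sum_congr rfl fun j _ => by simp only [hy]; ring
      have e4 := (hB4 U τ hU' (li w) (li w) (tk0_gc_li w) (tk0_gc_li w)).2.2.2
      have e5 : ∫ x, (2 * ∑ j, m i j * y j x) ^ 2 ∂(mu U) = 4 * cv U (li w) (li w) := by
        rw [e4, ← integral_const_mul]
        congr 1
        ext x
        rw [e2]
        ring
      rw [e5]
      have e6 := hc w
      have e7 : ‖w‖ ^ 2 = ∑ j, (m i j) ^ 2 := by
        rw [← b.sum_sq_norm_inner_right w]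
        refine Finset.sum_congr rfl fun k _ => ?_
        have : inner ℝ (b k) w = m i k := by
          rw [hw]
          simp only [inner_sum, real_inner_smul_right]
          rw [Finset.sum_eq_single k]
          · rw [real_inner_self_eq_norm_sq, b.norm_eq_one]; ring
          · intro j _ hj
            rw [b.inner_eq_zero (Ne.symm hj), mul_zero]
          · simp
        rw [this, Real.norm_eq_abs, sq_abs]
      rw [e7] at e6
      linarith
    have e8 : ∫ x, ‖fderiv ℝ q x‖ ^ 2 ∂(mu U) =
        ∑ i, ∫ x, (2 * ∑ j, m i j * y j x) ^ 2 ∂(mu U) := by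
      rw [← integral_finset_sum]
      · congr 1
        ext x
        exact hfn x
      · intro i _
        exact (((GC.const _).mul (GC.sum fun j => (GC.const _).mul (hyGC j))).sq).integrable hP
    rw [e8, hK, Finset.mul_sum]
    exact Finset.sum_le_sum fun i _ => e1 i
  -- the covariance
  have hcov : cv U (li θ) q = K := by
    have e1 : cv U (li θ) q = ∫ x, (li θ x - mn U θ) * q x ∂(mu U) := by
      unfold cv mn
      rw [← integral_const_mul, ← integral_sub]
      · congr 1
        ext x
        ring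
      · exact ((tk0_gc_li θ).mul hqGC).integrable hP
      · exact (hqGC.integrable hP).const_mul _
    have e2 : ∀ x, (li θ x - mn U θ) * q x = ∑ i, ∑ j, m i j *
        ((li θ x - mn U θ) * (li (b i) x - mn U (b i)) * (li (b j) x - mn U (b j))) := by
      intro x
      simp only [hq, Finset.mul_sum, hy]
      exact Finset.sum_congr rfl fun i _ => Finset.sum_congr rfl fun j _ => by ring
    have hGC3 : ∀ i j, GC (fun x => (li θ x - mn U θ) * (li (b i) x - mn U (b i)) *
        (li (b j) x - mn U (b j))) := fun i j =>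
      (((tk0_gc_li θ).sub (GC.const _)).mul (hyGC i)).mul (hyGC j)
    rw [e1]
    simp only [e2]
    rw [integral_finset_sum]
    · rw [hK]
      refine Finset.sum_congr rfl fun i _ => ?_
      rw [integral_finset_sum]
      · refine Finset.sum_congr rfl fun j _ => ?_
        rw [integral_const_mul, sq]
        rfl
      · intro j _
        exact ((hGC3 i j).integrable hP).const_mul _
    · intro i _
      exact (GC.sum fun j => (GC.const (m i j)).mul (hGC3 i j)).integrable hP
  have hcs := (hB4 U τ hU' (li θ) q (tk0_gc_li θ) hqGC).1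
  rw [hcov] at hcs
  have hθ1 : cv U (li θ) (li θ) ≤ 1 := by
    have := hc θ
    rw [hθ] at this
    linarith
  have hq0 : 0 ≤ cv U q q := (hB4 U τ hU' q q hqGC hqGC).2.1
  have hK0 : 0 ≤ K := Finset.sum_nonneg fun i _ => Finset.sum_nonneg fun j _ => sq_nonneg _
  have hs : 0 < Real.sqrt τ := Real.sqrt_pos.2 hτ
  have hs1 : Real.sqrt (1 / τ) = 1 / Real.sqrt τ := by rw [Real.sqrt_div zero_le_one, Real.sqrt_one]
  rw [hs1] at hvar
  have h5 : K ^ 2 ≤ (4 / Real.sqrt τ) * K := by
    calc K ^ 2 ≤ cv U (li θ) (li θ) * cv U q q := hcs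
      _ ≤ 1 * cv U q q := mul_le_mul_of_nonneg_right hθ1 hq0
      _ = cv U q q := one_mul _
      _ ≤ 1 / Real.sqrt τ * ∫ x, ‖fderiv ℝ q x‖ ^ 2 ∂(mu U) := hvar
      _ ≤ 1 / Real.sqrt τ * (4 * K) := mul_le_mul_of_nonneg_left hen (by positivity)
      _ = (4 / Real.sqrt τ) * K := by ring
  rcases hK0.eq_or_lt with h0 | h0
  · rw [← h0]
    positivity
  · rw [sq] at h5
    exact le_of_mul_le_mul_right h5 h0

end Pool.Agent.H73.KG
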